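import Pool.Agent.Q284.NP.Main
import Pool.Agent.Q284.NP.Amp

/-!
# Property (A) does not imply that the absolute Galois group is procyclic, even for fields which are not PAC and not ample

Question 1 of the problem: if every `O`-acyclic variety over a field `K` has a `K`-rational point, is the absolute Galois group
`G_K` topologically generated by one element?

Answer: no. For EVERY prime `p` there is a perfect field `K` of characteristic `p` such that

* every smooth proper geometrically integral `K`-scheme `X` with `H¹(X, 𝒪_X) = 0` (so every `𝒪`-acyclic variety) has a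
  `K`-rational point,
* `G_K` is not topologically generated by any finite set,
* `K` is NOT pseudo-algebraically closed, and not even ample: the smooth absolutely irreducible curve `y^p - y = x^(p+1)` has no
  `K`-rational point with `x ≠ 0`.

More generally every perfect field `k` of characteristic `p` without points `x ≠ 0` on this curve is algebraically closed in a
perfect field `K ⊇ k` with the first and the third property.

Proof. Let `K` be perfect of characteristic `p` and `X` smooth, proper, geometrically integral over `K` with `H¹(X, 𝒪_X) = 0`,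
`F` its function field, `y^p - y = x^(p+1)` in `F`. In a valuation ring of `F` either `x` or `y / x^p` is contained, and
`x = (y/x)^p - y/x^p`, so `x` is the sum of a regular function and a `p`-th power at every point of codimension one. The local
rings of `X` are free over their `p`-th powers with `1` in a basis, so this holds at all points, and `H¹(X, 𝒪_X) = 0` makes it
hold globally: `x = c + w^p`, `c` a global function, i.e. a constant, i.e. a `p`-th power. So `x = x₁^p`, `y = y₁^p` with a
point `(x₁, y₁)` of the same curve; by descent `x ∈ K`. So one can adjoin generic points of all these `X` again and again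
without getting new points on the curve (existentially closed fields), and without making the field algebraic over `k` larger.
For `k` = perfect closure of `F_p(t)` the group `G_K` has infinitely many independent Artin-Schreier characters.

Projects PAC, NP: plan, statements with paper proofs, engine and assembly by helper284; lemmas by helpers 96, 150, 154, 176, 182,
259, 265.
-/

set_option autoImplicit false

open CategoryTheory AlgebraicGeometry Polynomial

namespace Pool.Agent.Results.MP_023059_nt.NotProcyclic

/-- restriction of sections of the structure sheaf -/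
def res {X : Scheme.{0}} {U V : X.Opens} (h : V ≤ U) (s : Γ(X, U)) : Γ(X, V) := (X.presheaf.map (homOfLE h).op).hom s

/-- `H¹(X, 𝒪_X) = 0`: for every open cover every Čech 1-cocycle of the structure sheaf is a coboundary -/
def H1Zero (X : Scheme.{0}) : Prop :=
  ∀ (ι : Type) (U : ι → X.Opens), (⨆ i, U i) = ⊤ → ∀ s : ∀ i j, Γ(X, U i ⊓ U j),
    (∀ i j k, res (V := U i ⊓ U j ⊓ U k) inf_le_left (s i j) +
        res (V := U i ⊓ U j ⊓ U k) (inf_le_inf_right (U k) inf_le_right) (s j k) =
      res (V := U i ⊓ U j ⊓ U k) (inf_le_inf_right (U k) inf_le_left) (s i k)) →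
    ∃ g : ∀ i, Γ(X, U i), ∀ i j, s i j = res inf_le_right (g j) - res inf_le_left (g i)

/-- every smooth proper geometrically integral `K`-scheme `X` with `H¹(X, 𝒪_X) = 0` has a `K`-rational point; this contains
property (A) -/
def HasPoints (K : Type) [Field K] : Prop :=
  ∀ (X : Scheme.{0}) (f : X ⟶ Spec (.of K)), Smooth f → IsProper f → GeometricallyIntegral f → H1Zero X →
    ∃ s : Spec (.of K) ⟶ X, s ≫ f = 𝟙 _

/-- the absolute Galois group (Krull topology) is topologically generated by a finite set -/
def FinitelyGenerated (K : Type) [Field K] : Prop :=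
  ∃ S : Finset (SeparableClosure K ≃ₐ[K] SeparableClosure K),
    (Subgroup.closure (S : Set (SeparableClosure K ≃ₐ[K] SeparableClosure K))).topologicalClosure = ⊤

/-- `K` is pseudo-algebraically closed: every absolutely irreducible `f(T, X)` with `∂f/∂X ≠ 0` has, for every `g(T) ≠ 0`, a zero
`(t, x)` in `K` with `g(t) ≠ 0` -/
def PAC (K : Type) [Field K] : Prop :=
  ∀ f : K[X][X], Irreducible (f.map (mapRingHom (algebraMap K (AlgebraicClosure K)))) → derivative f ≠ 0 →
    ∀ g : K[X], g ≠ 0 → ∃ t x : K, (f.eval (C x)).eval t = 0 ∧ g.eval t ≠ 0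

/-- `K` is ample (large), i.e. existentially closed in `K((t))`: every finite system of polynomial equations over `K` with a
solution in `K((t))` has a solution in `K` -/
def Ample (K : Type) [Field K] : Prop :=
  ∀ (n : ℕ) (S : Finset (MvPolynomial (Fin n) K)),
    (∃ x : Fin n → LaurentSeries K, ∀ f ∈ S, MvPolynomial.aeval x f = 0) →
    ∃ x : Fin n → K, ∀ f ∈ S, MvPolynomial.aeval x f = 0

theorem result :
    (∀ (p : ℕ) [Fact p.Prime], ∃ (K : Type) (_ : Field K), CharP K p ∧ (∀ a : K, ∃ b : K, b ^ p = a) ∧
      HasPoints K ∧ ¬ FinitelyGenerated K ∧ ¬ PAC K ∧ ¬ Ample K ∧ ∀ x y : K, y ^ p - y = x ^ (p + 1) → x = 0) ∧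
    (∀ (p : ℕ) [Fact p.Prime] (k : Type) [Field k] [CharP k p], (∀ a : k, ∃ b : k, b ^ p = a) →
      (∀ x y : k, y ^ p - y = x ^ (p + 1) → x = 0) →
      ∃ (K : Type) (_ : Field K) (_ : Algebra k K), (∀ x : K, IsAlgebraic k x → x ∈ Set.range (algebraMap k K)) ∧
        (∀ a : K, ∃ b : K, b ^ p = a) ∧ HasPoints K ∧ ¬ PAC K ∧ ¬ Ample K ∧ ∀ x y : K, y ^ p - y = x ^ (p + 1) → x = 0) := by
  have hpac : ∀ (p : ℕ) [Fact p.Prime] (K : Type) [Field K] [CharP K p], (∀ x y : K, y ^ p - y = x ^ (p + 1) → x = 0) →
      ¬ PAC K := by
    intro p _ K _ _ h hP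
    have hp1 : 1 < p := (Fact.out : p.Prime).one_lt
    obtain ⟨t, x, h1, h2⟩ := hP (X ^ (p + 1) - C (X ^ p - X)) (by
      rw [Polynomial.map_sub, Polynomial.map_pow, map_X, map_C, coe_mapRingHom, Polynomial.map_sub, Polynomial.map_pow, map_X]
      exact Pool.Agent.Q284.NP.curve_irreducible p (AlgebraicClosure K)) (by
      rw [derivative_sub, derivative_C, sub_zero, derivative_X_pow]
      have h1 : ((p + 1 : ℕ) : K[X]) = 1 := by
        rw [Nat.cast_add, CharP.cast_eq_zero, zero_add, Nat.cast_one]
      rw [h1, map_one, one_mul]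
      exact pow_ne_zero _ X_ne_zero) (X ^ p - X) (FiniteField.X_pow_card_sub_X_ne_zero K hp1)
    rw [eval_sub, eval_pow, eval_X, eval_C, eval_sub, eval_pow, eval_C, eval_sub, eval_pow, eval_X] at h1
    rw [eval_sub, eval_pow, eval_X] at h2
    have h3 := h x t (sub_eq_zero.1 h1).symm
    rw [h3, zero_pow (Nat.succ_ne_zero p), zero_sub, neg_eq_zero] at h1
    exact h2 h1
  have hamp : ∀ (p : ℕ) [Fact p.Prime] (K : Type) [Field K] [CharP K p], (∀ x y : K, y ^ p - y = x ^ (p + 1) → x = 0) →
      ¬ Ample K := by
    classical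
    intro p _ K _ _ h hA
    have e1 : ∀ (L : Type) [Field L] [Algebra K L] (v : Fin 3 → L),
        MvPolynomial.aeval v (Pool.Agent.Q284.NP.pol1 p K) = v 1 ^ p - v 1 - v 0 ^ (p + 1) := by
      intro L _ _ v
      unfold Pool.Agent.Q284.NP.pol1
      rw [map_sub, map_sub, map_pow, map_pow, MvPolynomial.aeval_X, MvPolynomial.aeval_X]
    have e2 : ∀ (L : Type) [Field L] [Algebra K L] (v : Fin 3 → L),
        MvPolynomial.aeval v (Pool.Agent.Q284.NP.pol2 K) = v 2 * v 0 - 1 := by
      intro L _ _ v
      unfold Pool.Agent.Q284.NP.pol2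
      rw [map_sub, map_mul, map_one, MvPolynomial.aeval_X, MvPolynomial.aeval_X]
    obtain ⟨x, y, hx, hxy⟩ := Pool.Agent.Q284.NP.exists_laurent p K
    obtain ⟨v, hv⟩ := hA 3 {Pool.Agent.Q284.NP.pol1 p K, Pool.Agent.Q284.NP.pol2 K} (by
      refine ⟨![x, y, x⁻¹], fun f hf => ?_⟩
      rw [Finset.mem_insert, Finset.mem_singleton] at hf
      rcases hf with rfl | rfl
      · rw [e1]
        exact sub_eq_zero.2 hxy
      · rw [e2]
        change x⁻¹ * x - 1 = 0
        rw [inv_mul_cancel₀ hx, sub_self])
    have h1 := hv (Pool.Agent.Q284.NP.pol1 p K) (Finset.mem_insert_self _ _)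
    have h2 := hv (Pool.Agent.Q284.NP.pol2 K) (Finset.mem_insert_of_mem (Finset.mem_singleton_self _))
    rw [e1] at h1
    rw [e2, h _ _ (sub_eq_zero.1 h1), mul_zero, zero_sub, neg_eq_zero] at h2
    exact one_ne_zero h2
  refine ⟨?_, ?_⟩
  · intro p _
    obtain ⟨K, _, h1, h2, h3, h4, h5⟩ := Pool.Agent.Q284.NP.main_fg p
    exact ⟨K, inferInstance, h1, h2, fun X f a b c d => h3 X f a b c d, fun ⟨S, hS⟩ => h4 S hS, hpac p K h5, hamp p K h5, h5⟩
  · intro p _ k _ _ hk h
    obtain ⟨K, _, _, h1, h2, h3, h4⟩ := Pool.Agent.Q284.NP.main p k hk h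
    have hc : CharP K p := charP_of_injective_algebraMap (algebraMap k K).injective p
    exact ⟨K, inferInstance, inferInstance, h1, h2, fun X f a b c d => h3 X f a b c d, hpac p K h4, hamp p K h4, h4⟩

end Pool.Agent.Results.MP_023059_nt.NotProcyclic
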